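import Pool.Agent.Helper17.SV.Stmts

set_option autoImplicit false

open Finset

namespace Pool.Agent.Helper17.SV

open Pool.Agent.Helper17.SO

theorem sqv_cls (r x : ℕ) (hr : 0 < r) (c : ZMod r) (T : Finset ℕ)
    (hT : ∀ k ∈ T, k ≤ x ∧ (k : ZMod r) = c) : T.card ≤ x / r + 1 := by
  have h := Finset.card_le_card_of_injOn (s := T) (t := Finset.range (x / r + 1))
    (fun k => k / r) (by
      intro k hk
      have h1 := (hT k (by exact_mod_cast hk)).1
      simp only [Finset.coe_range, Set.mem_Iio]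
      exact Nat.lt_succ_of_le (Nat.div_le_div_right h1)) (by
      intro a ha b hb hab
      have h1 := (hT a (by exact_mod_cast ha)).2
      have h2 := (hT b (by exact_mod_cast hb)).2
      have h3 : (a : ZMod r) = (b : ZMod r) := by rw [h1, h2]
      rw [ZMod.natCast_eq_natCast_iff'] at h3
      have h4 : a / r = b / r := hab
      rw [← Nat.div_add_mod a r, ← Nat.div_add_mod b r, h3, h4])
  rwa [Finset.card_range] at h

theorem sqv_two (lam l : ℕ) (hl : l.Prime) (h4 : 4 * lam < l) (a b : ℤ)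
    (ha : (l : ℤ) ^ 2 ∣ a ^ 2 - a + lam) (hb : (l : ℤ) ^ 2 ∣ b ^ 2 - b + lam) :
    (l : ℤ) ^ 2 ∣ a - b ∨ (l : ℤ) ^ 2 ∣ a + b - 1 := by
  have hp : Prime (l : ℤ) := Nat.prime_iff_prime_int.1 hl
  have hm : (l : ℤ) ^ 2 ∣ (a - b) * (a + b - 1) := by
    have h := dvd_sub ha hb
    have e : a ^ 2 - a + lam - (b ^ 2 - b + lam) = (a - b) * (a + b - 1) := by ring
    rwa [e] at h
  by_cases h1 : (l : ℤ) ∣ a - b
  · have h2 : ¬ (l : ℤ) ∣ a + b - 1 := by
      intro h2
      have h3 : (l : ℤ) ∣ 2 * a - 1 := by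
        have h := dvd_add h1 h2
        have e : a - b + (a + b - 1) = 2 * a - 1 := by ring
        rwa [e] at h
      have h5 : (l : ℤ) ∣ a ^ 2 - a + lam := dvd_trans (dvd_pow_self _ (by norm_num)) ha
      have h6 : (l : ℤ) ∣ 4 * lam - 1 := by
        have h := dvd_sub (h5.mul_left 4) (h3.mul_left (2 * a - 1))
        have e : 4 * (a ^ 2 - a + lam) - (2 * a - 1) * (2 * a - 1) = 4 * (lam : ℤ) - 1 := by ring
        rwa [e] at h
      have hl2 : (2 : ℤ) ≤ l := by exact_mod_cast hl.two_le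
      have h4' : 4 * (lam : ℤ) < l := by exact_mod_cast h4
      have hlam : (0 : ℤ) ≤ lam := by positivity
      by_cases h0 : (lam : ℤ) = 0
      · rw [h0] at h6
        have h7 : (l : ℤ) ∣ 1 := by
          have := (dvd_neg (α := ℤ)).2 h6
          simpa using this
        have h8 := Int.le_of_dvd one_pos h7
        omega
      · have h7 : (0 : ℤ) < 4 * lam - 1 := by omega
        have h8 := Int.le_of_dvd h7 h6
        omega
    left
    rw [mul_comm] at hm
    exact hp.pow_dvd_of_dvd_mul_left 2 h2 hm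
  · right
    exact hp.pow_dvd_of_dvd_mul_left 2 h1 hm

theorem sqv_l (lam l x : ℕ) (hl : l.Prime) (h4 : 4 * lam < l) (T : Finset ℕ)
    (hT : ∀ k ∈ T, k ≤ x ∧ ((l : ℤ) ^ 2 ∣ (k : ℤ) ^ 2 - k + lam)) :
    (T.card : ℝ) ≤ 2 * (x * ((l : ℝ) ^ 2)⁻¹) + 2 := by
  classical
  have hlr : (0 : ℝ) < (l : ℝ) ^ 2 := by
    have : (0 : ℝ) < l := by exact_mod_cast hl.pos
    positivity
  rcases T.eq_empty_or_nonempty with h0 | ⟨k0, hk0⟩
  · rw [h0, Finset.card_empty]
    have : 0 ≤ (x : ℝ) * ((l : ℝ) ^ 2)⁻¹ := by positivity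
    push_cast
    linarith
  · have hr : 0 < l ^ 2 := pow_pos hl.pos 2
    have hsub : T ⊆ (T.filter (fun k => (k : ZMod (l ^ 2)) = (k0 : ZMod (l ^ 2)))) ∪
        (T.filter (fun k => (k : ZMod (l ^ 2)) = 1 - (k0 : ZMod (l ^ 2)))) := by
      intro k hk
      rw [Finset.mem_union, Finset.mem_filter, Finset.mem_filter]
      rcases sqv_two lam l hl h4 k k0 (hT k hk).2 (hT k0 hk0).2 with h | h
      · left
        refine ⟨hk, ?_⟩
        have h' : ((l ^ 2 : ℕ) : ℤ) ∣ (k : ℤ) - k0 := by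
          push_cast
          exact h
        have h2 := (ZMod.intCast_zmod_eq_zero_iff_dvd ((k : ℤ) - k0) (l ^ 2)).2 h'
        push_cast at h2
        exact sub_eq_zero.1 h2
      · right
        refine ⟨hk, ?_⟩
        have h' : ((l ^ 2 : ℕ) : ℤ) ∣ (k : ℤ) + k0 - 1 := by
          push_cast
          exact h
        have h2 := (ZMod.intCast_zmod_eq_zero_iff_dvd ((k : ℤ) + k0 - 1) (l ^ 2)).2 h'
        push_cast at h2
        linear_combination h2
    have c1 := sqv_cls (l ^ 2) x hr (k0 : ZMod (l ^ 2))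
      (T.filter (fun k => (k : ZMod (l ^ 2)) = (k0 : ZMod (l ^ 2)))) (by
        intro k hk
        rw [Finset.mem_filter] at hk
        exact ⟨(hT k hk.1).1, hk.2⟩)
    have c2 := sqv_cls (l ^ 2) x hr (1 - (k0 : ZMod (l ^ 2)))
      (T.filter (fun k => (k : ZMod (l ^ 2)) = 1 - (k0 : ZMod (l ^ 2)))) (by
        intro k hk
        rw [Finset.mem_filter] at hk
        exact ⟨(hT k hk.1).1, hk.2⟩)
    have c3 : T.card ≤ (x / l ^ 2 + 1) + (x / l ^ 2 + 1) :=
      (Finset.card_le_card hsub).trans ((Finset.card_union_le _ _).trans (Nat.add_le_add c1 c2))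
    have c4 : ((x / l ^ 2 : ℕ) : ℝ) ≤ x * ((l : ℝ) ^ 2)⁻¹ := by
      have h := @Nat.cast_div_le ℝ _ _ _ x (l ^ 2)
      push_cast at h
      rw [div_eq_mul_inv] at h
      exact h
    have c5 : (T.card : ℝ) ≤ (((x / l ^ 2 : ℕ) : ℝ) + 1) + (((x / l ^ 2 : ℕ) : ℝ) + 1) := by
      exact_mod_cast c3
    linarith

theorem st_SQV : ST_SQV := by
  classical
  intro lam w z x h4 hw S hS
  rcases Nat.lt_or_ge z w with hzw | hwz
  · have h0 : S = ∅ := by
      rw [Finset.eq_empty_iff_forall_notMem]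
      intro k hk
      obtain ⟨_, l, _, h1, h2, _⟩ := hS k hk
      omega
    rw [h0, Finset.card_empty]
    push_cast
    positivity
  · let F : ℕ → Finset ℕ := fun l => if l.Prime then
      S.filter (fun k => (l : ℤ) ^ 2 ∣ (k : ℤ) ^ 2 - k + lam) else ∅
    have hsub : S ⊆ (Finset.Ioc w z).biUnion F := by
      intro k hk
      obtain ⟨_, l, hl, h1, h2, h3⟩ := hS k hk
      rw [Finset.mem_biUnion]
      refine ⟨l, Finset.mem_Ioc.2 ⟨h1, h2⟩, ?_⟩
      simp only [F]
      rw [if_pos hl, Finset.mem_filter]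
      exact ⟨hk, h3⟩
    have hF : ∀ l ∈ Finset.Ioc w z, ((F l).card : ℝ) ≤ 2 * (x * ((l : ℝ) ^ 2)⁻¹) + 2 := by
      intro l hl
      rw [Finset.mem_Ioc] at hl
      simp only [F]
      split_ifs with hp
      · exact sqv_l lam l x hp (by omega) _ (by
          intro k hk
          rw [Finset.mem_filter] at hk
          exact ⟨(hS k hk.1).1, hk.2⟩)
      · rw [Finset.card_empty]
        push_cast
        positivity
    have h5 : (S.card : ℝ) ≤ ∑ l ∈ Finset.Ioc w z, ((F l).card : ℝ) := by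
      have h := (Finset.card_le_card hsub).trans Finset.card_biUnion_le
      exact_mod_cast h
    have h6 := h5.trans (Finset.sum_le_sum hF)
    have h7 : ∑ l ∈ Finset.Ioc w z, (2 * (x * ((l : ℝ) ^ 2)⁻¹) + 2) =
        2 * x * ∑ l ∈ Finset.Ioc w z, ((l : ℝ) ^ 2)⁻¹ + 2 * (z - w) := by
      rw [Finset.sum_add_distrib, Finset.sum_const, Nat.card_Ioc, nsmul_eq_mul,
        Nat.cast_sub hwz, Finset.mul_sum]
      congr 1
      · exact Finset.sum_congr rfl (fun i _ => by ring)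
      · ring
    rw [h7] at h6
    have h8 := sum_Ioc_inv_sq_le_sub (α := ℝ) (k := w) (n := z) (by omega) hwz
    have h9 : (0 : ℝ) ≤ (z : ℝ)⁻¹ := by positivity
    have h10 : ∑ l ∈ Finset.Ioc w z, ((l : ℝ) ^ 2)⁻¹ ≤ (w : ℝ)⁻¹ := by linarith
    have h11 : 2 * (x : ℝ) * ∑ l ∈ Finset.Ioc w z, ((l : ℝ) ^ 2)⁻¹ ≤ 2 * x * (w : ℝ)⁻¹ :=
      mul_le_mul_of_nonneg_left h10 (by positivity)
    have h12 : (0 : ℝ) ≤ w := by positivity
    rw [div_eq_mul_inv]
    linarith

end Pool.Agent.Helper17.SV
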